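import Pool.Agent.H586.AF.D

/-!
# AG-EX: expansion of the derivatives of the energy (helper62, after helper120's AF-EX)
-/

set_option autoImplicit false
set_option linter.unusedVariables false

open MeasureTheory Matrix Finset Filter Topology
open scoped Matrix.Norms.Frobenius

namespace Pool.Agent.H62.AG

open Pool.Agent.H586.AF (ex1 ex2 ex3 ex4 s12 s13 s23 s14 s24 s34 IH I0 I1 I2 I3)
open Pool.Agent.H586.AF.GG

noncomputable section

/-! ### Fourfold sums -/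

/-- a fourfold sum -/
def S4 (A B C D : Finset ℕ) (F : ℕ → ℕ → ℕ → ℕ → ℝ) : ℝ :=
  ∑ x ∈ A, ∑ y ∈ B, ∑ z ∈ C, ∑ h ∈ D, F x y z h

theorem S4_abs {A B C D : Finset ℕ} {F : ℕ → ℕ → ℕ → ℕ → ℝ} {n : ℕ} {b : ℝ} (hb : 0 ≤ b)
    (hA : A.card ≤ n) (hB : B.card ≤ n) (hC : C.card ≤ n) (hD : D.card ≤ n)
    (hF : ∀ x ∈ A, ∀ y ∈ B, ∀ z ∈ C, ∀ h ∈ D, |F x y z h| ≤ b) :
    |S4 A B C D F| ≤ (n : ℝ) ^ 4 * b := by
  have step : ∀ (s : Finset ℕ) (g : ℕ → ℝ) (c : ℝ), 0 ≤ c → s.card ≤ n → (∀ i ∈ s, |g i| ≤ c) →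
      |∑ i ∈ s, g i| ≤ n * c := by
    intro s g c hc hs hg
    refine (Finset.abs_sum_le_sum_abs _ _).trans ((Finset.sum_le_sum hg).trans ?_)
    rw [Finset.sum_const, nsmul_eq_mul]
    exact mul_le_mul_of_nonneg_right (by exact_mod_cast hs) hc
  have hn : (0 : ℝ) ≤ n := Nat.cast_nonneg n
  have h := step A (fun x => ∑ y ∈ B, ∑ z ∈ C, ∑ h ∈ D, F x y z h) (n * (n * (n * b)))
    (by positivity) hA fun x hx =>
      step B _ _ (by positivity) hB fun y hy =>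
        step C _ _ (by positivity) hC fun z hz =>
          step D _ _ hb hD fun h hh => hF x hx y hy z hz h hh
  unfold S4
  refine h.trans (le_of_eq ?_)
  ring

theorem S4_hasDerivAt {A B C D : Finset ℕ} {F : ℝ → ℕ → ℕ → ℕ → ℕ → ℝ}
    {F' : ℕ → ℕ → ℕ → ℕ → ℝ} {θ : ℝ}
    (h : ∀ x y z h, HasDerivAt (fun θ => F θ x y z h) (F' x y z h) θ) :
    HasDerivAt (fun θ => S4 A B C D (F θ)) (S4 A B C D F') θ := by
  unfold S4
  exact HasDerivAt.fun_sum fun x _ => HasDerivAt.fun_sum fun y _ =>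
    HasDerivAt.fun_sum fun z _ => HasDerivAt.fun_sum fun k _ => h x y z k

theorem S4_continuous {X : Type} [TopologicalSpace X] {A B C D : Finset ℕ}
    {F : X → ℕ → ℕ → ℕ → ℕ → ℝ} (h : ∀ x y z h, Continuous fun σ => F σ x y z h) :
    Continuous fun σ => S4 A B C D (F σ) := by
  unfold S4
  exact continuous_finsetSum _ fun x _ => continuous_finsetSum _ fun y _ =>
    continuous_finsetSum _ fun z _ => continuous_finsetSum _ fun k _ => h x y z k

theorem S4_add {A B C D : Finset ℕ} (F G : ℕ → ℕ → ℕ → ℕ → ℝ) :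
    S4 A B C D (fun x y z h => F x y z h + G x y z h) = S4 A B C D F + S4 A B C D G := by
  unfold S4
  simp only [Finset.sum_add_distrib]

theorem S4_sub {A B C D : Finset ℕ} (F G : ℕ → ℕ → ℕ → ℕ → ℝ) :
    S4 A B C D (fun x y z h => F x y z h - G x y z h) = S4 A B C D F - S4 A B C D G := by
  unfold S4
  simp only [Finset.sum_sub_distrib]

theorem S4_smul {A B C D : Finset ℕ} (c : ℝ) (F : ℕ → ℕ → ℕ → ℕ → ℝ) :
    S4 A B C D (fun x y z h => c * F x y z h) = c * S4 A B C D F := by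
  unfold S4
  simp only [Finset.mul_sum]

theorem S4_const {A B C D : Finset ℕ} (c : ℝ) :
    S4 A B C D (fun _ _ _ _ => c) = A.card * (B.card * (C.card * (D.card * c))) := by
  unfold S4
  simp only [Finset.sum_const, nsmul_eq_mul]

/-! ### Measurability of derivatives -/

theorem meas_deriv {Ω : Type} [MeasurableSpace Ω] (e e1 : ℝ → Ω → ℝ)
    (he : ∀ θ, Measurable (e θ)) (h : ∀ θ ω, HasDerivAt (fun θ => e θ ω) (e1 θ ω) θ) (θ : ℝ) :
    Measurable (e1 θ) := by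
  have ht : Tendsto (fun n : ℕ => (1 : ℝ) / ((n : ℝ) + 1)) atTop (𝓝[≠] 0) := by
    rw [tendsto_nhdsWithin_iff]
    refine ⟨tendsto_one_div_add_atTop_nhds_zero_nat, Filter.Eventually.of_forall fun n => ?_⟩
    rw [Set.mem_compl_iff, Set.mem_singleton_iff]
    positivity
  refine measurable_of_tendsto_metrizable
    (f := fun (n : ℕ) (ω : Ω) => ((1 : ℝ) / ((n : ℝ) + 1))⁻¹ •
      (e (θ + (1 : ℝ) / ((n : ℝ) + 1)) ω - e θ ω)) ?_ ?_
  · intro n
    exact Measurable.const_smul ((he _).sub (he θ)) (((1 : ℝ) / ((n : ℝ) + 1))⁻¹)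
  · rw [tendsto_pi_nhds]
    intro ω
    exact (h θ ω).tendsto_slope_zero.comp ht

/-! ### Extended fields -/

section ext

variable {R S : Type} (L : ℕ)

theorem ex1_map (f : R → S) (u : I1 L → R) (w : R) (x y z h : ℕ) :
    ex1 L (fun i => f (u i)) (f w) x y z h = f (ex1 L u w x y z h) := by
  unfold ex1
  split_ifs <;> rfl

theorem ex2_map (f : R → S) (u : I2 L → R) (w : R) (x y z h : ℕ) :
    ex2 L (fun i => f (u i)) (f w) x y z h = f (ex2 L u w x y z h) := by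
  unfold ex2
  split_ifs <;> rfl

theorem ex3_map (f : R → S) (u : I3 L → R) (w : R) (x y z h : ℕ) :
    ex3 L (fun i => f (u i)) (f w) x y z h = f (ex3 L u w x y z h) := by
  unfold ex3
  split_ifs <;> rfl

end ext


variable {N L : ℕ} {G : Subgroup (UU N)}

/-- the extended fields -/
def V1 (σ : IH L → G) : ℕ → ℕ → ℕ → ℕ → G := ex1 L (fun i => σ (Sum.inl i)) 1
/-- the extended fields -/
def V2 (σ : IH L → G) : ℕ → ℕ → ℕ → ℕ → G :=
  ex2 L (fun i => σ (Sum.inr (Sum.inl i))) 1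
/-- the extended fields -/
def V3 (σ : IH L → G) : ℕ → ℕ → ℕ → ℕ → G :=
  ex3 L (fun i => σ (Sum.inr (Sum.inr i))) 1

theorem mt_one : mt (1 : G) = 1 := rfl

theorem e1_coe (σ : IH L → G) (x y z h : ℕ) :
    ex1 L (fun i => mt (σ (Sum.inl i))) 1 x y z h = mt (V1 σ x y z h) :=
  ex1_map L (fun q : G => mt q) (fun i => σ (Sum.inl i)) 1 x y z h
theorem e2_coe (σ : IH L → G) (x y z h : ℕ) :
    ex2 L (fun i => mt (σ (Sum.inr (Sum.inl i)))) 1 x y z h = mt (V2 σ x y z h) :=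
  ex2_map L (fun q : G => mt q) (fun i => σ (Sum.inr (Sum.inl i))) 1 x y z h
theorem e3_coe (σ : IH L → G) (x y z h : ℕ) :
    ex3 L (fun i => mt (σ (Sum.inr (Sum.inr i)))) 1 x y z h = mt (V3 σ x y z h) :=
  ex3_map L (fun q : G => mt q) (fun i => σ (Sum.inr (Sum.inr i))) 1 x y z h

theorem w1_coe (σ : IH L → G) (x y z h : ℕ) :
    ex1 L (fun i => wf σ (Sum.inl i)) 0 x y z h = mt (V1 σ x y z h) - 1 := by
  have e := ex1_map L (fun q : G => mt q - 1) (fun i => σ (Sum.inl i)) 1 x y z h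
  simp only [mt_one, sub_self] at e
  exact e
theorem w2_coe (σ : IH L → G) (x y z h : ℕ) :
    ex2 L (fun i => wf σ (Sum.inr (Sum.inl i))) 0 x y z h = mt (V2 σ x y z h) - 1 := by
  have e := ex2_map L (fun q : G => mt q - 1) (fun i => σ (Sum.inr (Sum.inl i))) 1 x y z h
  simp only [mt_one, sub_self] at e
  exact e
theorem w3_coe (σ : IH L → G) (x y z h : ℕ) :
    ex3 L (fun i => wf σ (Sum.inr (Sum.inr i))) 0 x y z h = mt (V3 σ x y z h) - 1 := by
  have e := ex3_map L (fun q : G => mt q - 1) (fun i => σ (Sum.inr (Sum.inr i))) 1 x y z h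
  simp only [mt_one, sub_self] at e
  exact e

theorem sz_nonneg (σ : IH L → G) : 0 ≤ sz σ :=
  Finset.sum_nonneg fun _ _ => norm_nonneg _

theorem le_sz (σ : IH L → G) (l : IH L) : ‖mt (σ l) - 1‖ ≤ sz σ := by
  unfold sz
  exact Finset.single_le_sum (f := fun l => ‖mt (σ l) - 1‖) (fun _ _ => norm_nonneg _)
    (Finset.mem_univ l)

theorem V1_sz (σ : IH L → G) (x y z h : ℕ) : ‖mt (V1 σ x y z h) - 1‖ ≤ sz σ := by
  unfold V1 ex1
  split_ifs with c
  · exact le_sz σ _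
  · rw [mt_one, sub_self, norm_zero]
    exact sz_nonneg σ
theorem V2_sz (σ : IH L → G) (x y z h : ℕ) : ‖mt (V2 σ x y z h) - 1‖ ≤ sz σ := by
  unfold V2 ex2
  split_ifs with c
  · exact le_sz σ _
  · rw [mt_one, sub_self, norm_zero]
    exact sz_nonneg σ
theorem V3_sz (σ : IH L → G) (x y z h : ℕ) : ‖mt (V3 σ x y z h) - 1‖ ≤ sz σ := by
  unfold V3 ex3
  split_ifs with c
  · exact le_sz σ _
  · rw [mt_one, sub_self, norm_zero]
    exact sz_nonneg σ

theorem mt_cont : Continuous fun g : G => mt g :=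
  continuous_subtype_val.comp continuous_subtype_val

theorem V1_cont (x y z h : ℕ) :
    Continuous fun σ : IH L → G => mt (V1 σ x y z h) := by
  unfold V1 ex1
  split_ifs with c
  · exact mt_cont.comp (continuous_apply _)
  · exact continuous_const
theorem V2_cont (x y z h : ℕ) :
    Continuous fun σ : IH L → G => mt (V2 σ x y z h) := by
  unfold V2 ex2
  split_ifs with c
  · exact mt_cont.comp (continuous_apply _)
  · exact continuous_const
theorem V3_cont (x y z h : ℕ) :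
    Continuous fun σ : IH L → G => mt (V3 σ x y z h) := by
  unfold V3 ex3
  split_ifs with c
  · exact mt_cont.comp (continuous_apply _)
  · exact continuous_const

/-- unitary matrices -/
abbrev Un (a : Mt N) : Prop := a ∈ Matrix.unitaryGroup (Fin N) ℂ

theorem un_mt (g : G) : Un (mt g) := (g : UU N).2

theorem un_one : Un (1 : Mt N) := one_mem _

theorem exp_mul_neg (Y : Mt N) : NormedSpace.exp Y * NormedSpace.exp (-Y) = 1 := by
  rw [← Matrix.exp_add_of_commute Y (-Y) (Commute.refl Y).neg_right, add_neg_cancel,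
    NormedSpace.exp_zero]

theorem bg_star {X : Mt N} (hX : Xᴴ = -X) (θ x : ℝ) : (bg X θ x)ᴴ = bg X θ (-x) := by
  unfold bg
  rw [← Matrix.exp_conjTranspose, Matrix.conjTranspose_smul, hX]
  congr 1
  simp

theorem bg_mul_star {X : Mt N} (hX : Xᴴ = -X) (θ x : ℝ) : bg X θ x * (bg X θ x)ᴴ = 1 := by
  rw [bg_star hX]
  unfold bg
  have e : (θ * -x) • X = -((θ * x) • X) := by
    rw [← neg_smul]
    congr 1
    ring
  rw [e]
  exact exp_mul_neg _

theorem star_mul_bg {X : Mt N} (hX : Xᴴ = -X) (θ x : ℝ) : (bg X θ x)ᴴ * bg X θ x = 1 := by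
  exact mul_eq_one_comm.1 (bg_mul_star hX θ x)

theorem un_bg {X : Mt N} (hX : Xᴴ = -X) (θ x : ℝ) : Un (bg X θ x) :=
  Matrix.mem_unitaryGroup_iff.2 (bg_mul_star hX θ x)

theorem un_conj {X : Mt N} (hX : Xᴴ = -X) (θ x : ℝ) {a : Mt N} (ha : Un a) :
    Un (bg X θ x * a * bg X θ x) :=
  mul_mem (mul_mem (un_bg hX θ x) ha) (un_bg hX θ x)

theorem pe_bound {a b c d : Mt N} (ha : Un a) (hb : Un b) (hc : Un c) (hd : Un d) :
    |pe a b c d| ≤ 2 * N := by
  have hu : Un (a * b * cᴴ * dᴴ) :=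
    mul_mem (mul_mem (mul_mem ha hb) (Unitary.star_mem hc)) (Unitary.star_mem hd)
  have h1 : |(trace (a * b * cᴴ * dᴴ)).re| ≤ N := by
    refine (Complex.abs_re_le_norm _).trans ?_
    unfold trace
    refine (norm_sum_le _ _).trans ?_
    refine (Finset.sum_le_sum fun i _ => entry_norm_bound_of_unitary hu i i).trans ?_
    simp
  unfold pe
  rw [trace_sub, trace_one, Complex.sub_re, Fintype.card_fin, Complex.natCast_re]
  have h2 := abs_le.1 h1
  rw [abs_le]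
  constructor <;> linarith [h2.1, h2.2]

theorem pe_cont {X : Type} [TopologicalSpace X] {a b c d : X → Mt N} (ha : Continuous a)
    (hb : Continuous b) (hc : Continuous c) (hd : Continuous d) :
    Continuous fun s => pe (a s) (b s) (c s) (d s) := by
  unfold pe
  refine Complex.continuous_re.comp (Continuous.matrix_trace ?_)
  exact continuous_const.sub (((ha.matrix_mul hb).matrix_mul hc.matrix_conjTranspose).matrix_mul
    hd.matrix_conjTranspose)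

/-! ### The sums over the plaquettes -/

/-- sum over the plaquettes of the plane 12 -/
def T12 (L : ℕ) (f : G → G → G → G → ℕ → ℝ) (σ : IH L → G) : ℝ :=
  S4 (range L) (range L) (Ico 1 L) (Icc 1 L) fun x y z h =>
    f (V1 σ x y z h) (V2 σ (x + 1) y z h) (V1 σ x (y + 1) z h) (V2 σ x y z h) x

/-- sum over the plaquettes of the plane 23 -/
def T23 (L : ℕ) (f : G → G → G → G → ℕ → ℝ) (σ : IH L → G) : ℝ :=
  S4 (Ico 1 L) (range L) (range L) (Icc 1 L) fun x y z h =>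
    f (V2 σ x y z h) (V3 σ x (y + 1) z h) (V2 σ x y (z + 1) h) (V3 σ x y z h) x

theorem T12_sub (f g : G → G → G → G → ℕ → ℝ) (σ : IH L → G) :
    T12 L (fun a b c d x => f a b c d x - g a b c d x) σ = T12 L f σ - T12 L g σ := S4_sub _ _
theorem T12_add (f g : G → G → G → G → ℕ → ℝ) (σ : IH L → G) :
    T12 L (fun a b c d x => f a b c d x + g a b c d x) σ = T12 L f σ + T12 L g σ := S4_add _ _
theorem T12_smul (r : ℝ) (f : G → G → G → G → ℕ → ℝ) (σ : IH L → G) :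
    T12 L (fun a b c d x => r * f a b c d x) σ = r * T12 L f σ := S4_smul _ _
theorem T23_sub (f g : G → G → G → G → ℕ → ℝ) (σ : IH L → G) :
    T23 L (fun a b c d x => f a b c d x - g a b c d x) σ = T23 L f σ - T23 L g σ := S4_sub _ _

theorem T12_const (hL : 2 ≤ L) (r : ℝ) (σ : IH L → G) :
    T12 L (fun _ _ _ _ _ => r) σ = (L : ℝ) ^ 3 * (L - 1) * r := by
  unfold T12
  rw [S4_const, card_range, Nat.card_Ico, Nat.card_Icc, Nat.add_sub_cancel,
    Nat.cast_sub (by omega), Nat.cast_one]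
  ring

theorem T12_deriv {f : ℝ → G → G → G → G → ℕ → ℝ} {f' : G → G → G → G → ℕ → ℝ}
    {θ : ℝ} (h : ∀ a b c d x, HasDerivAt (fun θ => f θ a b c d x) (f' a b c d x) θ)
    (σ : IH L → G) : HasDerivAt (fun θ => T12 L (f θ) σ) (T12 L f' σ) θ :=
  S4_hasDerivAt fun x y z k => h _ _ _ _ _
theorem T23_deriv {f : ℝ → G → G → G → G → ℕ → ℝ} {f' : G → G → G → G → ℕ → ℝ}
    {θ : ℝ} (h : ∀ a b c d x, HasDerivAt (fun θ => f θ a b c d x) (f' a b c d x) θ)
    (σ : IH L → G) : HasDerivAt (fun θ => T23 L (f θ) σ) (T23 L f' σ) θ :=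
  S4_hasDerivAt fun x y z k => h _ _ _ _ _

theorem T12_abs {f : G → G → G → G → ℕ → ℝ} {σ : IH L → G} {b : ℝ} (hb : 0 ≤ b)
    (h : ∀ a1 a2 a3 a4 : G, ‖mt a1 - 1‖ ≤ sz σ → ‖mt a2 - 1‖ ≤ sz σ →
      ‖mt a3 - 1‖ ≤ sz σ → ‖mt a4 - 1‖ ≤ sz σ → ∀ x : ℕ, x < L →
      |f a1 a2 a3 a4 x| ≤ b) : |T12 L f σ| ≤ (L : ℝ) ^ 4 * b := by
  refine S4_abs hb (by rw [card_range]) (by rw [card_range]) (by rw [Nat.card_Ico]; omega)
    (by rw [Nat.card_Icc]; omega) fun x hx y _ z _ k _ => ?_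
  exact h _ _ _ _ (V1_sz σ _ _ _ _) (V2_sz σ _ _ _ _) (V1_sz σ _ _ _ _) (V2_sz σ _ _ _ _) x
    (mem_range.1 hx)
theorem T23_abs {f : G → G → G → G → ℕ → ℝ} {σ : IH L → G} {b : ℝ} (hb : 0 ≤ b)
    (h : ∀ a1 a2 a3 a4 : G, ‖mt a1 - 1‖ ≤ sz σ → ‖mt a2 - 1‖ ≤ sz σ →
      ‖mt a3 - 1‖ ≤ sz σ → ‖mt a4 - 1‖ ≤ sz σ → ∀ x : ℕ, x < L →
      |f a1 a2 a3 a4 x| ≤ b) : |T23 L f σ| ≤ (L : ℝ) ^ 4 * b := by
  refine S4_abs hb (by rw [Nat.card_Ico]; omega) (by rw [card_range]) (by rw [card_range])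
    (by rw [Nat.card_Icc]; omega) fun x hx y _ z _ k _ => ?_
  exact h _ _ _ _ (V2_sz σ _ _ _ _) (V3_sz σ _ _ _ _) (V2_sz σ _ _ _ _) (V3_sz σ _ _ _ _) x
    (mem_Ico.1 hx).2

/-- telescoping -/
theorem T12_tele (f : G → ℝ) (hf : f 1 = 0) (σ : IH L → G) :
    T12 L (fun a b c d _ => f a + f b - f c - f d) σ = 0 := by
  have e : T12 L (fun a b c d _ => f a + f b - f c - f d) σ =
      (∑ x ∈ range L, ∑ y ∈ range L, ∑ z ∈ Ico 1 L, ∑ h ∈ Icc 1 L,
        (f (V1 σ x y z h) - f (V1 σ x (y + 1) z h))) +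
      ∑ x ∈ range L, ∑ y ∈ range L, ∑ z ∈ Ico 1 L, ∑ h ∈ Icc 1 L,
        (f (V2 σ (x + 1) y z h) - f (V2 σ x y z h)) := by
    unfold T12 S4
    simp only [← Finset.sum_add_distrib]
    refine sum_congr rfl fun x _ => sum_congr rfl fun y _ => sum_congr rfl fun z _ =>
      sum_congr rfl fun h _ => ?_
    ring
  rw [e]
  have h1 : ∀ x, ∑ y ∈ range L, ∑ z ∈ Ico 1 L, ∑ h ∈ Icc 1 L,
      (f (V1 σ x y z h) - f (V1 σ x (y + 1) z h)) = 0 := by
    intro x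
    have h2 : ∀ y, ∑ z ∈ Ico 1 L, ∑ h ∈ Icc 1 L,
        (f (V1 σ x y z h) - f (V1 σ x (y + 1) z h)) =
        (∑ z ∈ Ico 1 L, ∑ h ∈ Icc 1 L, f (V1 σ x y z h)) -
          ∑ z ∈ Ico 1 L, ∑ h ∈ Icc 1 L, f (V1 σ x (y + 1) z h) := by
      intro y
      simp only [Finset.sum_sub_distrib]
    rw [sum_congr rfl fun y _ => h2 y,
      Finset.sum_range_sub' (fun y => ∑ z ∈ Ico 1 L, ∑ h ∈ Icc 1 L, f (V1 σ x y z h))]
    have h3 : ∀ z h, f (V1 σ x 0 z h) = 0 := by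
      intro z h
      unfold V1 ex1
      rw [dif_neg (by omega), hf]
    have h4 : ∀ z h, f (V1 σ x L z h) = 0 := by
      intro z h
      unfold V1 ex1
      rw [dif_neg (by omega), hf]
    simp only [h3, h4, Finset.sum_const_zero, sub_zero]
  have h5 : ∀ x, ∑ y ∈ range L, ∑ z ∈ Ico 1 L, ∑ h ∈ Icc 1 L,
      (f (V2 σ (x + 1) y z h) - f (V2 σ x y z h)) =
      (∑ y ∈ range L, ∑ z ∈ Ico 1 L, ∑ h ∈ Icc 1 L, f (V2 σ (x + 1) y z h)) -
        ∑ y ∈ range L, ∑ z ∈ Ico 1 L, ∑ h ∈ Icc 1 L, f (V2 σ x y z h) := by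
    intro x
    simp only [Finset.sum_sub_distrib]
  rw [sum_congr rfl fun x _ => h1 x, sum_const_zero, zero_add, sum_congr rfl fun x _ => h5 x,
    Finset.sum_range_sub (fun x => ∑ y ∈ range L, ∑ z ∈ Ico 1 L, ∑ h ∈ Icc 1 L, f (V2 σ x y z h))]
  have h3 : ∀ y z h, f (V2 σ 0 y z h) = 0 := by
    intro y z h
    unfold V2 ex2
    rw [dif_neg (by omega), hf]
  have h4 : ∀ y z h, f (V2 σ L y z h) = 0 := by
    intro y z h
    unfold V2 ex2
    rw [dif_neg (by omega), hf]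
  simp only [h3, h4, Finset.sum_const_zero, sub_zero]


/-! ### The energy -/

theorem pe24 {X : Mt N} (hX : Xᴴ = -X) (θ u : ℝ) (a c : Mt N) :
    pe (bg X θ u * a * bg X θ u) 1 (bg X θ u * c * bg X θ u) 1 = pe a 1 c 1 := by
  have h1 := bg_mul_star hX θ u
  have h2 := star_mul_bg hX θ u
  unfold pe
  set g := bg X θ u with hg
  rw [mul_one, mul_one, conjTranspose_one, mul_one, mul_one, conjTranspose_mul, conjTranspose_mul]
  have h3 : g * a * g * (gᴴ * (cᴴ * gᴴ)) = g * (a * (cᴴ * gᴴ)) := by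
    calc g * a * g * (gᴴ * (cᴴ * gᴴ)) = g * a * (g * gᴴ) * (cᴴ * gᴴ) := by
          simp only [mul_assoc]
      _ = g * (a * (cᴴ * gᴴ)) := by rw [h1, mul_one, mul_assoc]
  have h4 : trace (g * (a * (cᴴ * gᴴ))) = trace (a * cᴴ) := by
    rw [trace_mul_comm]
    congr 1
    calc a * (cᴴ * gᴴ) * g = a * cᴴ * (gᴴ * g) := by simp only [mul_assoc]
      _ = a * cᴴ := by rw [h2, mul_one]
  rw [trace_sub, trace_sub, h3, h4]

/-- the energy of a plaquette of the plane 12 -/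
def E12 (X : Mt N) (θ : ℝ) (a b c d : G) (x : ℕ) : ℝ :=
  pe (mt a) (bg X θ (((x : ℝ) + 1) / 2) * mt b * bg X θ (((x : ℝ) + 1) / 2)) (mt c)
    (bg X θ ((x : ℝ) / 2) * mt d * bg X θ ((x : ℝ) / 2))

/-- the energy of a plaquette of the plane 23 -/
def E23 (X : Mt N) (θ : ℝ) (a b c d : G) (x : ℕ) : ℝ :=
  pe (bg X θ ((x : ℝ) / 2) * mt a * bg X θ ((x : ℝ) / 2)) (mt b)
    (bg X θ ((x : ℝ) / 2) * mt c * bg X θ ((x : ℝ) / 2)) (mt d)

/-- the part of the energy which does not depend on the field -/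
def Kst (σ : IH L → G) : ℝ :=
  s13 L (fun x y z h => pe (mt (V1 σ x y z h)) (mt (V3 σ (x + 1) y z h)) (mt (V1 σ x y (z + 1) h))
    (mt (V3 σ x y z h))) +
  s14 L (fun x y z h => pe (mt (V1 σ x y z h)) 1 (mt (V1 σ x y z (h + 1))) 1) +
  s24 L (fun x y z h => pe (mt (V2 σ x y z h)) 1 (mt (V2 σ x y z (h + 1))) 1) +
  s34 L (fun x y z h => pe (mt (V3 σ x y z h)) 1 (mt (V3 σ x y z (h + 1))) 1)

theorem en_eq {X : Mt N} (hX : Xᴴ = -X) (θ : ℝ) (σ : IH L → G) :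
    en X L θ σ = T12 L (E12 X θ) σ + T23 L (E23 X θ) σ + Kst σ := by
  have e12 : T12 L (E12 X θ) σ = s12 L (fun x y z h =>
    pe (mt (V1 σ x y z h)) (bg X θ (((x : ℝ) + 1) / 2) * mt (V2 σ (x + 1) y z h) *
      bg X θ (((x : ℝ) + 1) / 2)) (mt (V1 σ x (y + 1) z h))
      (bg X θ ((x : ℝ) / 2) * mt (V2 σ x y z h) * bg X θ ((x : ℝ) / 2))) := rfl
  have e23 : T23 L (E23 X θ) σ = s23 L (fun x y z h =>
    pe (bg X θ ((x : ℝ) / 2) * mt (V2 σ x y z h) * bg X θ ((x : ℝ) / 2)) (mt (V3 σ x (y + 1) z h))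
      (bg X θ ((x : ℝ) / 2) * mt (V2 σ x y (z + 1) h) * bg X θ ((x : ℝ) / 2))
      (mt (V3 σ x y z h))) := rfl
  rw [e12, e23]
  unfold en wil Kst
  simp only [e1_coe, e2_coe, e3_coe, pe24 hX, Nat.cast_add, Nat.cast_one]
  ring

theorem en_cont {X : Mt N} (hX : Xᴴ = -X) (θ : ℝ) : Continuous fun σ : IH L → G => en X L θ σ := by
  have e : (fun σ : IH L → G => en X L θ σ) = fun σ =>
    T12 L (E12 X θ) σ + T23 L (E23 X θ) σ + Kst σ := funext fun σ => en_eq hX θ σ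
  rw [e]
  have c1 := fun x y z h => V1_cont (G := G) (L := L) x y z h
  have c2 := fun x y z h => V2_cont (G := G) (L := L) x y z h
  have c3 := fun x y z h => V3_cont (G := G) (L := L) x y z h
  refine (Continuous.add ?_ ?_).add ?_
  · refine S4_continuous fun x y z h => ?_
    exact pe_cont (c1 _ _ _ _) ((continuous_const.matrix_mul (c2 _ _ _ _)).matrix_mul
      continuous_const) (c1 _ _ _ _) ((continuous_const.matrix_mul (c2 _ _ _ _)).matrix_mul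
      continuous_const)
  · refine S4_continuous fun x y z h => ?_
    exact pe_cont ((continuous_const.matrix_mul (c2 _ _ _ _)).matrix_mul continuous_const)
      (c3 _ _ _ _) ((continuous_const.matrix_mul (c2 _ _ _ _)).matrix_mul continuous_const)
      (c3 _ _ _ _)
  · unfold Kst
    refine ((Continuous.add ?_ ?_).add ?_).add ?_
    · exact S4_continuous fun x y z h => pe_cont (c1 _ _ _ _) (c3 _ _ _ _) (c1 _ _ _ _) (c3 _ _ _ _)
    · exact S4_continuous fun x y z h => pe_cont (c1 _ _ _ _) continuous_const (c1 _ _ _ _)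
        continuous_const
    · exact S4_continuous fun x y z h => pe_cont (c2 _ _ _ _) continuous_const (c2 _ _ _ _)
        continuous_const
    · exact S4_continuous fun x y z h => pe_cont (c3 _ _ _ _) continuous_const (c3 _ _ _ _)
        continuous_const

theorem Kst_bound (σ : IH L → G) : |Kst σ| ≤ 8 * N * (L : ℝ) ^ 4 := by
  have h0 : (0 : ℝ) ≤ 2 * N := by positivity
  have r0 : (range L).card ≤ L := by rw [card_range]
  have i0 : (Ico 1 L).card ≤ L := by rw [Nat.card_Ico]; omega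
  have c0 : (Icc 1 L).card ≤ L := by rw [Nat.card_Icc]; omega
  have a1 : |s13 L (fun x y z h => pe (mt (V1 σ x y z h)) (mt (V3 σ (x + 1) y z h))
      (mt (V1 σ x y (z + 1) h)) (mt (V3 σ x y z h)))| ≤ (L : ℝ) ^ 4 * (2 * N) :=
    S4_abs h0 r0 i0 r0 c0 fun x _ y _ z _ h _ =>
      pe_bound (un_mt _) (un_mt _) (un_mt _) (un_mt _)
  have a2 : |s14 L (fun x y z h => pe (mt (V1 σ x y z h)) 1 (mt (V1 σ x y z (h + 1))) 1)| ≤
      (L : ℝ) ^ 4 * (2 * N) :=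
    S4_abs h0 r0 i0 i0 r0 fun x _ y _ z _ h _ =>
      pe_bound (un_mt _) un_one (un_mt _) un_one
  have a3 : |s24 L (fun x y z h => pe (mt (V2 σ x y z h)) 1 (mt (V2 σ x y z (h + 1))) 1)| ≤
      (L : ℝ) ^ 4 * (2 * N) :=
    S4_abs h0 i0 r0 i0 r0 fun x _ y _ z _ h _ =>
      pe_bound (un_mt _) un_one (un_mt _) un_one
  have a4 : |s34 L (fun x y z h => pe (mt (V3 σ x y z h)) 1 (mt (V3 σ x y z (h + 1))) 1)| ≤
      (L : ℝ) ^ 4 * (2 * N) :=
    S4_abs h0 i0 i0 r0 r0 fun x _ y _ z _ h _ =>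
      pe_bound (un_mt _) un_one (un_mt _) un_one
  unfold Kst
  generalize s13 L (fun x y z h => pe (mt (V1 σ x y z h)) (mt (V3 σ (x + 1) y z h))
      (mt (V1 σ x y (z + 1) h)) (mt (V3 σ x y z h))) = b1 at *
  generalize s14 L (fun x y z h => pe (mt (V1 σ x y z h)) 1 (mt (V1 σ x y z (h + 1))) 1) = b2 at *
  generalize s24 L (fun x y z h => pe (mt (V2 σ x y z h)) 1 (mt (V2 σ x y z (h + 1))) 1) = b3 at *
  generalize s34 L (fun x y z h => pe (mt (V3 σ x y z h)) 1 (mt (V3 σ x y z (h + 1))) 1) = b4 at *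
  have t1 := abs_add_le (b1 + b2 + b3) b4
  have t2 := abs_add_le (b1 + b2) b3
  have t3 := abs_add_le b1 b2
  linarith

theorem en_bound {X : Mt N} (hX : Xᴴ = -X) (θ : ℝ) (σ : IH L → G) :
    |en X L θ σ| ≤ 12 * N * (L : ℝ) ^ 4 := by
  rw [en_eq hX]
  have h0 : (0 : ℝ) ≤ 2 * N := by positivity
  have h1 : |T12 L (E12 X θ) σ| ≤ (L : ℝ) ^ 4 * (2 * N) := T12_abs h0
    fun a b c d _ _ _ _ x _ => pe_bound (un_mt _) (un_conj hX _ _ (un_mt _)) (un_mt _)
      (un_conj hX _ _ (un_mt _))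
  have h2 : |T23 L (E23 X θ) σ| ≤ (L : ℝ) ^ 4 * (2 * N) := T23_abs h0
    fun a b c d _ _ _ _ x _ => pe_bound (un_conj hX _ _ (un_mt _)) (un_mt _)
      (un_conj hX _ _ (un_mt _)) (un_mt _)
  have h3 := Kst_bound σ
  have t1 := abs_add_le (T12 L (E12 X θ) σ + T23 L (E23 X θ) σ) (Kst σ)
  have t2 := abs_add_le (T12 L (E12 X θ) σ) (T23 L (E23 X θ) σ)
  linarith

/-! ### The theorem -/

theorem sq_le {L x : ℕ} (h : x < L) : (1 + (x : ℝ)) ^ 2 ≤ (L : ℝ) ^ 2 := by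
  have h1 : 1 + (x : ℝ) ≤ L := by
    have : 1 + x ≤ L := by omega
    exact_mod_cast this
  exact pow_le_pow_left₀ (by positivity) h1 2

theorem cube_le {a b c d s : ℝ} (ha : 0 ≤ a) (hb : 0 ≤ b) (hc : 0 ≤ c) (hd : 0 ≤ d) (has : a ≤ s)
    (hbs : b ≤ s) (hcs : c ≤ s) (hds : d ≤ s) : (a + b + c + d) ^ 3 ≤ 64 * s ^ 3 := by
  have h1 : a + b + c + d ≤ 4 * s := by linarith
  calc (a + b + c + d) ^ 3 ≤ (4 * s) ^ 3 := pow_le_pow_left₀ (by positivity) h1 3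
    _ = 64 * s ^ 3 := by ring

/-- the linear part -/
def ln (X : Mt N) (a : G) : ℝ := (trace (X * (mt a - 1))).re

theorem ln_one (X : Mt N) : ln X (1 : G) = 0 := by
  unfold ln
  rw [mt_one, sub_self, mul_zero, trace_zero, Complex.zero_re]

theorem ln_eq (X : Mt N) (a b c d : G) :
    (trace (X * (mt a - 1 + (mt b - 1) - (mt c - 1) - (mt d - 1)))).re =
      ln X a + ln X b - ln X c - ln X d := by
  unfold ln
  rw [mul_sub, mul_sub, mul_add, trace_sub, trace_sub, trace_add, Complex.sub_re, Complex.sub_re,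
    Complex.add_re]

/-- the sum of the norms -/
def nr (a b c d : G) : ℝ := ‖mt a - 1‖ + ‖mt b - 1‖ + ‖mt c - 1‖ + ‖mt d - 1‖

/-- the forms of the plane 12 -/
def K12 (X : Mt N) (a b c d : G) (x : ℕ) : ℝ := k12 X x (mt a - 1) (mt b - 1) (mt c - 1) (mt d - 1)
/-- the forms of the plane 12 -/
def G12 (X : Mt N) (a b c d : G) (x : ℕ) : ℝ := g12 X x (mt a - 1) (mt b - 1) (mt c - 1) (mt d - 1)
/-- the forms of the plane 23 -/
def K23 (X : Mt N) (a b c d : G) (x : ℕ) : ℝ := k23 X x (mt a - 1) (mt b - 1) (mt c - 1) (mt d - 1)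
/-- the forms of the plane 23 -/
def G23 (X : Mt N) (a b c d : G) (x : ℕ) : ℝ := g23 X x (mt a - 1) (mt b - 1) (mt c - 1) (mt d - 1)
/-- the anticommutator form -/
def H12 (X : Mt N) (a b c d : G) (x : ℕ) : ℝ :=
  hp X (mt a - 1 + (mt b - 1) - (mt c - 1) - (mt d - 1))
    (mt a - 1 + (mt b - 1) - (mt c - 1) - (mt d - 1))


theorem tex (hP12 : S_P12) (hP23 : S_P23) : S_EX := by
  intro N G _ _ _ X hX
  obtain ⟨C1, h1⟩ := hP12 N X hX
  obtain ⟨C2, h2⟩ := hP23 N X hX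
  have h1' : ∀ (a b c d : G) (x : ℕ), ∃ F1 F2 : ℝ → ℝ,
      (∀ θ, HasDerivAt (fun θ => E12 X θ a b c d x) (F1 θ) θ) ∧
      (∀ θ, HasDerivAt F1 (F2 θ) θ) ∧ (∀ θ, |F1 θ| ≤ |C1| * (1 + (x : ℝ)) ^ 2) ∧
      (∀ θ, |F2 θ| ≤ |C1| * (1 + (x : ℝ)) ^ 2) ∧
      |F1 0 + (ln X a + ln X b - ln X c - ln X d) - K12 X a b c d x| ≤
        |C1| * (1 + (x : ℝ)) ^ 2 * nr a b c d ^ 3 ∧
      |F2 0 - ip X X + (1 / 8) * H12 X a b c d x - G12 X a b c d x| ≤
        |C1| * (1 + (x : ℝ)) ^ 2 * nr a b c d ^ 3 := by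
    intro a b c d x
    obtain ⟨F1, F2, _, _, h3, h4, h5⟩ := h1 (a : UU N) b c d x (Nat.cast_nonneg x)
    have hc : C1 * (1 + (x : ℝ)) ^ 2 ≤ |C1| * (1 + (x : ℝ)) ^ 2 :=
      mul_le_mul_of_nonneg_right (le_abs_self _) (by positivity)
    have hn : 0 ≤ nr a b c d ^ 3 := by
      unfold nr
      positivity
    refine ⟨F1, F2, fun θ => (h3 θ).1, fun θ => (h3 θ).2.1, fun θ => (h3 θ).2.2.1.trans hc,
      fun θ => (h3 θ).2.2.2.trans hc, ?_, ?_⟩
    · rw [← ln_eq]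
      exact h4.trans (mul_le_mul_of_nonneg_right hc hn)
    · exact h5.trans (mul_le_mul_of_nonneg_right hc hn)
  have h2' : ∀ (a b c d : G) (x : ℕ), ∃ F1 F2 : ℝ → ℝ,
      (∀ θ, HasDerivAt (fun θ => E23 X θ a b c d x) (F1 θ) θ) ∧
      (∀ θ, HasDerivAt F1 (F2 θ) θ) ∧ (∀ θ, |F1 θ| ≤ |C2| * (1 + (x : ℝ)) ^ 2) ∧
      (∀ θ, |F2 θ| ≤ |C2| * (1 + (x : ℝ)) ^ 2) ∧
      |F1 0 - K23 X a b c d x| ≤ |C2| * (1 + (x : ℝ)) ^ 2 * nr a b c d ^ 3 ∧
      |F2 0 - G23 X a b c d x| ≤ |C2| * (1 + (x : ℝ)) ^ 2 * nr a b c d ^ 3 := by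
    intro a b c d x
    obtain ⟨F1, F2, _, _, h3, h4, h5⟩ := h2 (a : UU N) b c d x (Nat.cast_nonneg x)
    have hc : C2 * (1 + (x : ℝ)) ^ 2 ≤ |C2| * (1 + (x : ℝ)) ^ 2 :=
      mul_le_mul_of_nonneg_right (le_abs_self _) (by positivity)
    have hn : 0 ≤ nr a b c d ^ 3 := by
      unfold nr
      positivity
    exact ⟨F1, F2, fun θ => (h3 θ).1, fun θ => (h3 θ).2.1, fun θ => (h3 θ).2.2.1.trans hc,
      fun θ => (h3 θ).2.2.2.trans hc, h4.trans (mul_le_mul_of_nonneg_right hc hn),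
      h5.trans (mul_le_mul_of_nonneg_right hc hn)⟩
  choose A1 A2 hA1 hA2 bA1 bA2 rA1 rA2 using h1'
  choose B1 B2 hB1 hB2 bB1 bB2 rB1 rB2 using h2'
  refine ⟨64 * (|C1| + |C2|) + 12 * N, fun L hL => ?_⟩
  have hN0 : (0 : ℝ) ≤ N := Nat.cast_nonneg N
  have hL0 : (2 : ℝ) ≤ L := by exact_mod_cast hL
  have hL46 : (L : ℝ) ^ 4 ≤ (L : ℝ) ^ 6 := pow_le_pow_right₀ (by linarith) (by norm_num)
  have hL6 : 0 ≤ (L : ℝ) ^ 6 := by positivity
  have a1 := abs_nonneg C1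
  have a2 := abs_nonneg C2
  set e1 : ℝ → (IH L → G) → ℝ := fun θ σ =>
    T12 L (fun a b c d x => A1 a b c d x θ) σ + T23 L (fun a b c d x => B1 a b c d x θ) σ with he1
  set e2 : ℝ → (IH L → G) → ℝ := fun θ σ =>
    T12 L (fun a b c d x => A2 a b c d x θ) σ + T23 L (fun a b c d x => B2 a b c d x θ) σ with he2
  have d1 : ∀ θ σ, HasDerivAt (fun θ => en X L θ σ) (e1 θ σ) θ := by
    intro θ σ
    have e : (fun θ => en X L θ σ) = fun θ => T12 L (E12 X θ) σ + T23 L (E23 X θ) σ + Kst σ :=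
      funext fun θ => en_eq hX θ σ
    rw [e]
    exact ((T12_deriv (fun a b c d x => hA1 a b c d x θ) σ).add
      (T23_deriv (fun a b c d x => hB1 a b c d x θ) σ)).add_const _
  have d2 : ∀ θ σ, HasDerivAt (fun θ => e1 θ σ) (e2 θ σ) θ := fun θ σ =>
    (T12_deriv (fun a b c d x => hA2 a b c d x θ) σ).add
      (T23_deriv (fun a b c d x => hB2 a b c d x θ) σ)
  have i1 : SecondCountableTopology (Mt N) :=
    inferInstanceAs (SecondCountableTopology (Fin N → Fin N → ℂ))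
  have i2 : SecondCountableTopology (UU N) := TopologicalSpace.Subtype.secondCountableTopology _
  have i3 : SecondCountableTopology G := TopologicalSpace.Subtype.secondCountableTopology _
  have m0 : ∀ θ, Measurable (fun σ : IH L → G => en X L θ σ) := fun θ => (en_cont hX θ).measurable
  have m1 : ∀ θ, Measurable (e1 θ) := meas_deriv (fun θ (σ : IH L → G) => en X L θ σ) e1 m0 d1
  have m2 : ∀ θ, Measurable (e2 θ) := meas_deriv e1 e2 m1 d2
  -- bounds of sums over the plaquettes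
  have tb : ∀ (c : ℝ) (x : ℕ), 0 ≤ c → x < L → c * (1 + (x : ℝ)) ^ 2 ≤ c * (L : ℝ) ^ 2 :=
    fun c x hc hx => mul_le_mul_of_nonneg_left (sq_le hx) hc
  refine ⟨e1, e2, m1, m2, m0, fun θ σ => ⟨d1 θ σ, d2 θ σ, ?_, ?_, ?_⟩, fun σ => ?_⟩
  · have t1 : |T12 L (fun a b c d x => A1 a b c d x θ) σ| ≤ (L : ℝ) ^ 4 * (|C1| * (L : ℝ) ^ 2) :=
      T12_abs (by positivity) fun a b c d _ _ _ _ x hx => (bA1 a b c d x θ).trans (tb _ x a1 hx)
    have t2 : |T23 L (fun a b c d x => B1 a b c d x θ) σ| ≤ (L : ℝ) ^ 4 * (|C2| * (L : ℝ) ^ 2) :=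
      T23_abs (by positivity) fun a b c d _ _ _ _ x hx => (bB1 a b c d x θ).trans (tb _ x a2 hx)
    have t3 := abs_add_le (T12 L (fun a b c d x => A1 a b c d x θ) σ)
      (T23 L (fun a b c d x => B1 a b c d x θ) σ)
    have t4 : (L : ℝ) ^ 4 * (|C1| * (L : ℝ) ^ 2) + (L : ℝ) ^ 4 * (|C2| * (L : ℝ) ^ 2) =
      (|C1| + |C2|) * (L : ℝ) ^ 6 := by ring
    have t5 : (|C1| + |C2|) * (L : ℝ) ^ 6 ≤ (64 * (|C1| + |C2|) + 12 * N) * (L : ℝ) ^ 6 :=
      mul_le_mul_of_nonneg_right (by linarith) hL6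
    linarith
  · have t1 : |T12 L (fun a b c d x => A2 a b c d x θ) σ| ≤ (L : ℝ) ^ 4 * (|C1| * (L : ℝ) ^ 2) :=
      T12_abs (by positivity) fun a b c d _ _ _ _ x hx => (bA2 a b c d x θ).trans (tb _ x a1 hx)
    have t2 : |T23 L (fun a b c d x => B2 a b c d x θ) σ| ≤ (L : ℝ) ^ 4 * (|C2| * (L : ℝ) ^ 2) :=
      T23_abs (by positivity) fun a b c d _ _ _ _ x hx => (bB2 a b c d x θ).trans (tb _ x a2 hx)
    have t3 := abs_add_le (T12 L (fun a b c d x => A2 a b c d x θ) σ)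
      (T23 L (fun a b c d x => B2 a b c d x θ) σ)
    have t4 : (L : ℝ) ^ 4 * (|C1| * (L : ℝ) ^ 2) + (L : ℝ) ^ 4 * (|C2| * (L : ℝ) ^ 2) =
      (|C1| + |C2|) * (L : ℝ) ^ 6 := by ring
    have t5 : (|C1| + |C2|) * (L : ℝ) ^ 6 ≤ (64 * (|C1| + |C2|) + 12 * N) * (L : ℝ) ^ 6 :=
      mul_le_mul_of_nonneg_right (by linarith) hL6
    linarith
  · refine (en_bound hX θ σ).trans ?_
    calc 12 * N * (L : ℝ) ^ 4 ≤ 12 * N * (L : ℝ) ^ 6 :=
          mul_le_mul_of_nonneg_left hL46 (by positivity)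
      _ ≤ (64 * (|C1| + |C2|) + 12 * N) * (L : ℝ) ^ 6 :=
        mul_le_mul_of_nonneg_right (by linarith) hL6
  have hs0 := sz_nonneg σ
  have tc : ∀ (C : ℝ) (a b c d : G) (x : ℕ), 0 ≤ C → ‖mt a - 1‖ ≤ sz σ →
      ‖mt b - 1‖ ≤ sz σ → ‖mt c - 1‖ ≤ sz σ → ‖mt d - 1‖ ≤ sz σ → x < L →
      C * (1 + (x : ℝ)) ^ 2 * nr a b c d ^ 3 ≤
      C * (L : ℝ) ^ 2 * (64 * sz σ ^ 3) := fun C a b c d x hC ha hb hc hd hx =>
    mul_le_mul (tb C x hC hx) (cube_le (norm_nonneg _) (norm_nonneg _) (norm_nonneg _)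
      (norm_nonneg _) ha hb hc hd) (by unfold nr; positivity) (by positivity)
  have t4 : (L : ℝ) ^ 4 * (|C1| * (L : ℝ) ^ 2 * (64 * sz σ ^ 3)) +
      (L : ℝ) ^ 4 * (|C2| * (L : ℝ) ^ 2 * (64 * sz σ ^ 3)) =
      64 * (|C1| + |C2|) * (L : ℝ) ^ 6 * sz σ ^ 3 := by ring
  have t5 : 64 * (|C1| + |C2|) * (L : ℝ) ^ 6 * sz σ ^ 3 ≤
      (64 * (|C1| + |C2|) + 12 * N) * (L : ℝ) ^ 6 * sz σ ^ 3 :=
    mul_le_mul_of_nonneg_right (mul_le_mul_of_nonneg_right (by linarith) hL6) (by positivity)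
  have k1 : s12 L (fun x y z h => k12 X x (ex1 L (fun i => wf σ (Sum.inl i)) 0 x y z h)
      (ex2 L (fun i => wf σ (Sum.inr (Sum.inl i))) 0 (x + 1) y z h)
      (ex1 L (fun i => wf σ (Sum.inl i)) 0 x (y + 1) z h)
      (ex2 L (fun i => wf σ (Sum.inr (Sum.inl i))) 0 x y z h)) = T12 L (K12 X) σ := by
    simp only [w1_coe, w2_coe]
    rfl
  have k2 : s23 L (fun x y z h => k23 X x (ex2 L (fun i => wf σ (Sum.inr (Sum.inl i))) 0 x y z h)
      (ex3 L (fun i => wf σ (Sum.inr (Sum.inr i))) 0 x (y + 1) z h)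
      (ex2 L (fun i => wf σ (Sum.inr (Sum.inl i))) 0 x y (z + 1) h)
      (ex3 L (fun i => wf σ (Sum.inr (Sum.inr i))) 0 x y z h)) = T23 L (K23 X) σ := by
    simp only [w2_coe, w3_coe]
    rfl
  have k3 : s12 L (fun x y z h => g12 X x (ex1 L (fun i => wf σ (Sum.inl i)) 0 x y z h)
      (ex2 L (fun i => wf σ (Sum.inr (Sum.inl i))) 0 (x + 1) y z h)
      (ex1 L (fun i => wf σ (Sum.inl i)) 0 x (y + 1) z h)
      (ex2 L (fun i => wf σ (Sum.inr (Sum.inl i))) 0 x y z h)) = T12 L (G12 X) σ := by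
    simp only [w1_coe, w2_coe]
    rfl
  have k4 : s23 L (fun x y z h => g23 X x (ex2 L (fun i => wf σ (Sum.inr (Sum.inl i))) 0 x y z h)
      (ex3 L (fun i => wf σ (Sum.inr (Sum.inr i))) 0 x (y + 1) z h)
      (ex2 L (fun i => wf σ (Sum.inr (Sum.inl i))) 0 x y (z + 1) h)
      (ex3 L (fun i => wf σ (Sum.inr (Sum.inr i))) 0 x y z h)) = T23 L (G23 X) σ := by
    simp only [w2_coe, w3_coe]
    rfl
  have k5 : s12 L (fun x y z h => hp X (c12 (wf σ) x y z h) (c12 (wf σ) x y z h)) =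
      T12 L (H12 X) σ := by
    unfold c12
    simp only [w1_coe, w2_coe]
    rfl
  refine ⟨?_, ?_⟩
  · have t1 : |T12 L (fun a b c d x => A1 a b c d x 0 + (ln X a + ln X b - ln X c - ln X d) -
        K12 X a b c d x) σ| ≤ (L : ℝ) ^ 4 * (|C1| * (L : ℝ) ^ 2 * (64 * sz σ ^ 3)) :=
      T12_abs (by positivity) fun a b c d ha hb hc hd x hx =>
        (rA1 a b c d x).trans (tc _ a b c d x a1 ha hb hc hd hx)
    have t2 : |T23 L (fun a b c d x => B1 a b c d x 0 - K23 X a b c d x) σ| ≤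
        (L : ℝ) ^ 4 * (|C2| * (L : ℝ) ^ 2 * (64 * sz σ ^ 3)) :=
      T23_abs (by positivity) fun a b c d ha hb hc hd x hx =>
        (rB1 a b c d x).trans (tc _ a b c d x a2 ha hb hc hd hx)
    rw [T12_sub (fun a b c d x => A1 a b c d x 0 + (ln X a + ln X b - ln X c - ln X d))
        (fun a b c d x => K12 X a b c d x),
      T12_add (fun a b c d x => A1 a b c d x 0) (fun a b c d _ => ln X a + ln X b - ln X c - ln X d),
      T12_tele (ln X) (ln_one X) σ, add_zero] at t1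
    rw [T23_sub (fun a b c d x => B1 a b c d x 0) (fun a b c d x => K23 X a b c d x)] at t2
    have t3 := abs_add_le
      (T12 L (fun a b c d x => A1 a b c d x 0) σ - T12 L (K12 X) σ)
      (T23 L (fun a b c d x => B1 a b c d x 0) σ - T23 L (K23 X) σ)
    have e : e1 0 σ - (T12 L (K12 X) σ + T23 L (K23 X) σ) =
        (T12 L (fun a b c d x => A1 a b c d x 0) σ - T12 L (K12 X) σ) +
        (T23 L (fun a b c d x => B1 a b c d x 0) σ - T23 L (K23 X) σ) := by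
      rw [he1]
      ring
    rw [k1, k2, e]
    exact t3.trans ((add_le_add t1 t2).trans (t4.le.trans t5))
  · have t1 : |T12 L (fun a b c d x => A2 a b c d x 0 - ip X X +
        (1 / 8) * H12 X a b c d x - G12 X a b c d x) σ| ≤
        (L : ℝ) ^ 4 * (|C1| * (L : ℝ) ^ 2 * (64 * sz σ ^ 3)) :=
      T12_abs (by positivity) fun a b c d ha hb hc hd x hx =>
        (rA2 a b c d x).trans (tc _ a b c d x a1 ha hb hc hd hx)
    have t2 : |T23 L (fun a b c d x => B2 a b c d x 0 - G23 X a b c d x) σ| ≤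
        (L : ℝ) ^ 4 * (|C2| * (L : ℝ) ^ 2 * (64 * sz σ ^ 3)) :=
      T23_abs (by positivity) fun a b c d ha hb hc hd x hx =>
        (rB2 a b c d x).trans (tc _ a b c d x a2 ha hb hc hd hx)
    rw [T12_sub (fun a b c d x => A2 a b c d x 0 - ip X X + (1 / 8) * H12 X a b c d x)
        (fun a b c d x => G12 X a b c d x),
      T12_add (fun a b c d x => A2 a b c d x 0 - ip X X)
        (fun a b c d x => (1 / 8) * H12 X a b c d x),
      T12_sub (fun a b c d x => A2 a b c d x 0) (fun _ _ _ _ _ => ip X X),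
      T12_smul (1 / 8) (fun a b c d x => H12 X a b c d x),
      T12_const hL] at t1
    rw [T23_sub (fun a b c d x => B2 a b c d x 0) (fun a b c d x => G23 X a b c d x)] at t2
    have t3 := abs_add_le
      (T12 L (fun a b c d x => A2 a b c d x 0) σ - (L : ℝ) ^ 3 * (L - 1) * ip X X +
        1 / 8 * T12 L (H12 X) σ - T12 L (G12 X) σ)
      (T23 L (fun a b c d x => B2 a b c d x 0) σ - T23 L (G23 X) σ)
    have e : e2 0 σ - ip X X * (L : ℝ) ^ 3 * (L - 1) -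
        (T12 L (G12 X) σ + T23 L (G23 X) σ) + 1 / 8 * T12 L (H12 X) σ =
        (T12 L (fun a b c d x => A2 a b c d x 0) σ - (L : ℝ) ^ 3 * (L - 1) * ip X X +
          1 / 8 * T12 L (H12 X) σ - T12 L (G12 X) σ) +
        (T23 L (fun a b c d x => B2 a b c d x 0) σ - T23 L (G23 X) σ) := by
      rw [he2]
      ring
    rw [k3, k4, k5, e]
    exact t3.trans ((add_le_add t1 t2).trans (t4.le.trans t5))


end

end Pool.Agent.H62.AG
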